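import Pool.Agent.DPF.Stmts

/-!
Squad DPF (MP_d97b4e_co), rows CFL (conflicts of traces) and CLO (shifted families).
-/

namespace Pool.Agent.DPF.H94

open Finset Pool.Agent.DPS

theorem mem_ini {n l : ℕ} {x : Fin n} : x ∈ ini n l ↔ x.val < l := by
  simp [ini]

theorem ini_mono {n l l' : ℕ} (h : l ≤ l') : ini n l ⊆ ini n l' := by
  intro x hx
  rw [mem_ini] at hx ⊢
  omega

theorem card_ini {n l : ℕ} (h : l ≤ n) : (ini n l).card = l := by
  have h1 : (ini n l).map Fin.valEmbedding = Finset.range l := by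
    ext x
    simp only [Finset.mem_map, Finset.mem_range, Fin.valEmbedding_apply]
    constructor
    · rintro ⟨y, hy, rfl⟩
      exact mem_ini.1 hy
    · intro hx
      exact ⟨⟨x, by omega⟩, mem_ini.2 hx, rfl⟩
  rw [← Finset.card_map Fin.valEmbedding, h1, Finset.card_range]

theorem mem_XX {n : ℕ} {c : Fin n} {𝒯 : Finset (Finset (Fin n))} {E : Finset (Fin n)} :
    E ∈ XX c 𝒯 ↔ E ⊆ ini n c.val ∧ insert c E ∈ 𝒯 ∧ E ∉ 𝒯 := by
  simp [XX]

theorem mem_AA {n : ℕ} {c : Fin n} {𝒯 : Finset (Finset (Fin n))} {E : Finset (Fin n)} :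
    E ∈ AA c 𝒯 ↔ E ∈ 𝒯 ∧ E ⊆ ini n c.val := by
  simp [AA]

theorem not_mem_of_sub {n : ℕ} {c : Fin n} {E : Finset (Fin n)} (h : E ⊆ ini n c.val) :
    c ∉ E := fun hc => absurd (mem_ini.1 (h hc)) (lt_irrefl _)

theorem add_pt {n : ℕ} {c : Fin n} {𝒯 : Finset (Finset (Fin n))} (hcl : Cl c 𝒯)
    {E : Finset (Fin n)} (hE : E ∈ XX c 𝒯) {y : Fin n} (hy : y ∈ ini n c.val) (hyE : y ∉ E) :
    insert y E ∈ 𝒯 := by
  rw [mem_XX] at hE
  have hcE := not_mem_of_sub hE.1
  have hyc : y < c := mem_ini.1 hy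
  have h := hcl (insert c E) hE.2.1 (Finset.mem_insert_self c E) y hyc (by
    rw [Finset.mem_insert, not_or]
    exact ⟨hyc.ne, hyE⟩)
  rwa [Finset.erase_insert hcE] at h

theorem cfl : CFLStmt := by
  intro n t c 𝒯 ht htc hG hcl
  have hcn : c.val ≤ n := c.isLt.le
  have key : ∀ E ∈ XX c 𝒯, ∀ E' ∈ XX c 𝒯, t ≤ (E ∩ E').card + 1 := by
    intro E hE E' hE'
    have h1 := hG.int _ (mem_XX.1 hE).2.1 _ (mem_XX.1 hE').2.1
    rw [← Finset.insert_inter_distrib] at h1
    exact h1.trans (Finset.card_insert_le _ _)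
  have key2 : ∀ E ∈ XX c 𝒯, ∀ E' ∈ XX c 𝒯, ∀ y ∈ ini n c.val, y ∉ E → y ∉ E' →
      t ≤ (E ∩ E').card := by
    intro E hE E' hE' y hy hyE hyE'
    have h1 := hG.int _ (add_pt hcl hE hy hyE) _ (mem_XX.1 hE').2.1
    have hcE := not_mem_of_sub (mem_XX.1 hE).1
    have hyc : y ≠ c := (show y < c from mem_ini.1 hy).ne
    have h2 : insert y E ∩ insert c E' = E ∩ E' := by
      ext x
      simp only [Finset.mem_inter, Finset.mem_insert]
      constructor
      · rintro ⟨hx1, hx2⟩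
        rcases hx1 with rfl | hx1
        · rcases hx2 with hx2 | hx2
          · exact absurd hx2 hyc
          · exact absurd hx2 hyE'
        · rcases hx2 with rfl | hx2
          · exact absurd hx1 hcE
          · exact ⟨hx1, hx2⟩
      · rintro ⟨hx1, hx2⟩
        exact ⟨Or.inr hx1, Or.inr hx2⟩
    rwa [h2] at h1
  have p1 : ∀ E ∈ XX c 𝒯, t ≤ E.card := by
    intro E hE
    by_contra hlt
    have h1 : E.card < (ini n c.val).card := by
      rw [card_ini hcn]
      omega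
    obtain ⟨y, hy, hyE⟩ := Finset.exists_mem_notMem_of_card_lt_card h1
    have h2 := key2 E hE E hE y hy hyE hyE
    rw [Finset.inter_self] at h2
    exact hlt h2
  refine ⟨p1, ?_, ?_, ?_, ?_⟩
  · intro hini E hE
    have hE' := mem_XX.1 hE
    have h1 : E ⊂ ini n c.val := by
      refine Finset.ssubset_iff_subset_ne.2 ⟨hE'.1, ?_⟩
      rintro rfl
      exact hE'.2.2 hini
    have h2 := Finset.card_lt_card h1
    rw [card_ini hcn] at h2
    omega
  · intro E hE E' hE' hlt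
    have h1 := key E hE E' hE'
    have h2 : E ∪ E' = ini n c.val := by
      refine Finset.Subset.antisymm (Finset.union_subset (mem_XX.1 hE).1 (mem_XX.1 hE').1) ?_
      intro y hy
      by_contra hn
      rw [Finset.mem_union, not_or] at hn
      have h3 := key2 E hE E' hE' y hy hn.1 hn.2
      omega
    refine ⟨?_, h2⟩
    have h3 := Finset.card_union_add_card_inter E E'
    rw [h2, card_ini hcn] at h3
    omega
  · intro E hE E' hEE' hsub
    obtain ⟨y, hy, hyE⟩ := Finset.exists_of_ssubset hEE'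
    rw [mem_AA]
    refine ⟨?_, hsub⟩
    have h1 := add_pt hcl hE (hsub hy) hyE
    exact hG.up _ h1 E' (Finset.insert_subset hy hEE'.subset)
      (hsub.trans (ini_mono (Nat.le_succ _)))
  · intro E hE E' hE'
    have hE1 := mem_AA.1 hE
    rcases Finset.mem_union.1 hE' with h | h
    · exact hG.int _ hE1.1 _ (mem_AA.1 h).1
    · have h1 := hG.int _ hE1.1 _ (mem_XX.1 h).2.1
      rwa [Finset.inter_insert_of_notMem (not_mem_of_sub hE1.2)] at h1

theorem clo (shu : SHUStmt) (shl : SHLStmt) (shf : SHFStmt) : CLOStmt := by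
  intro n k t r θ c
  have main : ∀ (m : ℕ) (𝒯 : Finset (Finset (Fin n))),
      (𝒯.filter fun E => c ∈ E).card = m → Gd n (c.val + 1) t 𝒯 →
      ∃ 𝒯' : Finset (Finset (Fin n)), Gd n (c.val + 1) t 𝒯' ∧ Cl c 𝒯' ∧
        Lam r θ (fam k (c.val + 1) 𝒯) ≤ Lam r θ (fam k (c.val + 1) 𝒯') := by
    intro m
    induction m using Nat.strong_induction_on with
    | _ m ih =>
      intro 𝒯 hm hG
      by_cases hcl : Cl c 𝒯
      · exact ⟨𝒯, hG, hcl, le_rfl⟩
      · unfold Cl at hcl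
        push Not at hcl
        obtain ⟨E, hE, hcE, y, hyc, hyE, hno⟩ := hcl
        obtain ⟨hG', hlt⟩ := shu n t c y 𝒯 hyc hG
        have hlt' := hlt ⟨E, hE, hcE, hyE, hno⟩
        rw [hm] at hlt'
        obtain ⟨𝒯', h1, h2, h3⟩ := ih _ hlt' (UV.compression {y} {c} 𝒯) rfl hG'
        refine ⟨𝒯', h1, h2, le_trans ?_ h3⟩
        rw [shf n k (c.val + 1) c y 𝒯 hyc.ne (Nat.lt_succ_self _)
          (lt_trans (show y.val < c.val from hyc) (Nat.lt_succ_self _))]
        exact shl n r θ c y _ hyc.ne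
  intro 𝒯 hG
  exact main _ 𝒯 rfl hG

end Pool.Agent.DPF.H94
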